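import Mathlib

namespace Pool.Agent.Q99.CK

/-- Distinct points of `D` are at distance at least two. -/
def Sep2 {X : Type*} [NormedAddCommGroup X] (D : Set X) : Prop :=
  ∀ d ∈ D, ∀ d' ∈ D, d ≠ d' → 2 ≤ ‖d - d'‖

/-- Every point is within distance `r` of `D`. -/
def RDense {X : Type*} [NormedAddCommGroup X] (r : ℝ) (D : Set X) : Prop :=
  ∀ x : X, ∃ d ∈ D, ‖x - d‖ ≤ r

/-- The lattice simultaneous packing and covering constant. -/
noncomputable def gamLat (X : Type*) [NormedAddCommGroup X] : ℝ :=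
  sInf {r : ℝ | 0 < r ∧ ∃ D : AddSubgroup X, Sep2 (D : Set X) ∧ RDense r (D : Set X)}

end Pool.Agent.Q99.CK
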