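import Pool.Agent.Q99.CK.Defs

namespace Pool.Agent.Q99.CK

variable {X : Type*} [NormedAddCommGroup X] [NormedSpace ℝ X]

/-- octahedrality -/
def Oct (X : Type*) [NormedAddCommGroup X] [NormedSpace ℝ X] : Prop :=
  ∀ (F : Submodule ℝ X) (_ : FiniteDimensional ℝ F) (η : ℝ), 0 < η →
    ∃ u : X, ‖u‖ ≤ 1 ∧ ∀ y ∈ F, ∀ s : ℝ, 0 ≤ s → (1 - η) * (‖y‖ + s) ≤ ‖y + s • u‖

/-- there are 2-separated `(1+ε)`-dense subgroups -/
def Good (X : Type*) [NormedAddCommGroup X] : Prop :=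
  ∀ ε : ℝ, 0 < ε → ∃ D : AddSubgroup X, Sep2 (D : Set X) ∧ RDense (1 + ε) (D : Set X)

/-- states of the greedy construction -/
structure St (X : Type*) [NormedAddCommGroup X] [NormedSpace ℝ X] where
  F : Submodule ℝ X
  fin : FiniteDimensional ℝ F
  D : AddSubgroup X
  le : ∀ d ∈ D, d ∈ F
  sep : ∀ d ∈ D, d ≠ 0 → 2 ≤ ‖d‖

/-- the initial state -/
def St.bot : St X where
  F := ⊥
  fin := inferInstance
  D := ⊥
  le := fun d hd => by
    rw [AddSubgroup.mem_bot] at hd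
    rw [hd]; exact Submodule.zero_mem _
  sep := fun d hd h => absurd (AddSubgroup.mem_bot.1 hd) h

theorem St.next (hO : Oct X) {ε : ℝ} (hε : 0 < ε) (S : St X) (f : X) :
    ∃ S' : St X, S.D ≤ S'.D ∧ ∃ d ∈ S'.D, ‖f - d‖ ≤ 1 + ε := by
  by_cases hcov : ∃ d ∈ S.D, ‖f - d‖ ≤ 1 + ε
  · exact ⟨S, le_rfl, hcov⟩
  push Not at hcov
  haveI := S.fin
  set F' : Submodule ℝ X := S.F ⊔ Submodule.span ℝ {f} with hF'
  have hfin' : FiniteDimensional ℝ F' := by rw [hF']; infer_instance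
  have hη : 0 < 1 - 1 / (1 + ε) := by
    rw [sub_pos, div_lt_one (by linarith)]; linarith
  obtain ⟨u, hu1, hu⟩ := hO F' hfin' (1 - 1 / (1 + ε)) hη
  have hfF : f ∈ F' := Submodule.mem_sup_right (Submodule.mem_span_singleton_self f)
  have hDF : ∀ d ∈ S.D, d ∈ F' := fun d hd => Submodule.mem_sup_left (S.le d hd)
  set v : X := f + (1 + ε) • u with hv
  have hkey : ∀ y ∈ F', ∀ s : ℝ, 0 ≤ s → 1 / (1 + ε) * (‖y‖ + s) ≤ ‖y + s • u‖ := by
    intro y hy s hs
    have := hu y hy s hs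
    have e : 1 - (1 - 1 / (1 + ε)) = 1 / (1 + ε) := by ring
    rwa [e] at this
  -- main estimate
  have hmain : ∀ d ∈ S.D, ∀ k : ℕ, 1 ≤ k → 2 ≤ ‖(k : ℝ) • v + d‖ := by
    intro d hd k hk
    have e : (k : ℝ) • v + d = ((k : ℝ) • f + d) + ((k : ℝ) * (1 + ε)) • u := by
      rw [hv, smul_add, smul_smul]; abel
    have hy : (k : ℝ) • f + d ∈ F' := F'.add_mem (F'.smul_mem _ hfF) (hDF d hd)
    have h1 := hkey _ hy ((k : ℝ) * (1 + ε)) (by positivity)
    rw [e]
    refine le_trans ?_ h1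
    rw [one_div, ← div_eq_inv_mul, le_div_iff₀ (by linarith)]
    rcases Nat.lt_or_ge k 2 with hk2 | hk2
    · have : k = 1 := by omega
      subst this
      have h2 := hcov (-d) (S.D.neg_mem hd)
      rw [sub_neg_eq_add] at h2
      simp only [Nat.cast_one, one_smul, one_mul]
      linarith
    · have h2 : (2 : ℝ) ≤ k := by exact_mod_cast hk2
      have h3 := norm_nonneg ((k : ℝ) • f + d)
      nlinarith
  set F'' : Submodule ℝ X := F' ⊔ Submodule.span ℝ {u} with hF''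
  have huF : u ∈ F'' := Submodule.mem_sup_right (Submodule.mem_span_singleton_self u)
  have hvF : v ∈ F'' := by
    rw [hv]
    exact F''.add_mem (Submodule.mem_sup_left hfF) (F''.smul_mem _ huF)
  refine ⟨⟨F'', by rw [hF'']; infer_instance, S.D ⊔ AddSubgroup.zmultiples v, ?_, ?_⟩,
    le_sup_left, v, ?_, ?_⟩
  · intro d hd
    obtain ⟨y, hy, z, hz, rfl⟩ := AddSubgroup.mem_sup.1 hd
    obtain ⟨k, rfl⟩ := AddSubgroup.mem_zmultiples_iff.1 hz
    refine F''.add_mem (Submodule.mem_sup_left (hDF y hy)) ?_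
    exact zsmul_mem hvF k
  · intro d hd hd0
    obtain ⟨y, hy, z, hz, rfl⟩ := AddSubgroup.mem_sup.1 hd
    obtain ⟨k, rfl⟩ := AddSubgroup.mem_zmultiples_iff.1 hz
    rcases lt_trichotomy k 0 with hk | hk | hk
    · obtain ⟨m, hm⟩ : ∃ m : ℕ, k = -(m : ℤ) := ⟨k.natAbs, by omega⟩
      have hm1 : 1 ≤ m := by omega
      have h1 := hmain (-y) (S.D.neg_mem hy) m hm1
      have e : y + k • v = -((m : ℝ) • v + -y) := by
        rw [hm, neg_smul, natCast_zsmul, ← Nat.cast_smul_eq_nsmul ℝ]; abel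
      rw [e, norm_neg]; exact h1
    · subst hk
      rw [zero_smul, add_zero] at hd0 ⊢
      exact S.sep y hy hd0
    · obtain ⟨m, hm⟩ : ∃ m : ℕ, k = (m : ℤ) := ⟨k.natAbs, by omega⟩
      have hm1 : 1 ≤ m := by omega
      have h1 := hmain y hy m hm1
      have e : y + k • v = (m : ℝ) • v + y := by
        rw [hm, natCast_zsmul, ← Nat.cast_smul_eq_nsmul ℝ]; abel
      rw [e]; exact h1
  · exact (le_sup_right : AddSubgroup.zmultiples v ≤ _) (AddSubgroup.mem_zmultiples v)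
  · rw [hv, sub_add_cancel_left, norm_neg, norm_smul, Real.norm_of_nonneg (by linarith)]
    nlinarith [norm_nonneg u]

/-- the chain of states -/
noncomputable def chain (hO : Oct X) {ε : ℝ} (hε : 0 < ε) (x : ℕ → X) : ℕ → St X
  | 0 => St.bot
  | n + 1 => (St.next hO hε (chain hO hε x n) (x n)).choose

theorem chain_mono (hO : Oct X) {ε : ℝ} (hε : 0 < ε) (x : ℕ → X) :
    Monotone fun n => (chain hO hε x n).D :=
  monotone_nat_of_le_succ fun n => (St.next hO hε (chain hO hε x n) (x n)).choose_spec.1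

theorem chain_cover (hO : Oct X) {ε : ℝ} (hε : 0 < ε) (x : ℕ → X) (n : ℕ) :
    ∃ d ∈ (chain hO hε x (n + 1)).D, ‖x n - d‖ ≤ 1 + ε :=
  (St.next hO hε (chain hO hε x n) (x n)).choose_spec.2

/-- separable octahedral spaces are good -/
theorem good_of_oct [TopologicalSpace.SeparableSpace X] (hO : Oct X) : Good X := by
  intro ε hε
  have hε2 : 0 < ε / 2 := by linarith
  set x := TopologicalSpace.denseSeq X with hx
  refine ⟨⨆ n, (chain hO hε2 x n).D, ?_, ?_⟩
  · intro d hd d' hd' hne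
    have hmem : d - d' ∈ ⨆ n, (chain hO hε2 x n).D := AddSubgroup.sub_mem _ hd hd'
    rw [AddSubgroup.mem_iSup_of_directed (chain_mono hO hε2 x).directed_le] at hmem
    obtain ⟨n, hn⟩ := hmem
    exact (chain hO hε2 x n).sep _ hn (sub_ne_zero.2 hne)
  · intro f
    obtain ⟨n, hn⟩ := (TopologicalSpace.denseRange_denseSeq X).exists_dist_lt f hε2
    rw [dist_eq_norm] at hn
    obtain ⟨d, hd, hle⟩ := chain_cover hO hε2 x n
    refine ⟨d, (le_iSup (fun n => (chain hO hε2 x n).D) (n + 1)) hd, ?_⟩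
    calc ‖f - d‖ ≤ ‖f - x n‖ + ‖x n - d‖ := norm_sub_le_norm_sub_add_norm_sub _ _ _
      _ ≤ 1 + ε := by
        have : ‖f - x n‖ < ε / 2 := hn
        linarith

end Pool.Agent.Q99.CK
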