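import Pool.Agent.Q99.CK.Greedy

namespace Pool.Agent.Q99.CK

open Topology

variable {K : Type*} [TopologicalSpace K] [CompactSpace K] [T2Space K]

/-- Off `P` the space has bases of clopen sets. -/
def ZeroDimOff (P : Set K) : Prop :=
  ∀ x, x ∉ P → ∀ U ∈ 𝓝 x, ∃ V : Set K, IsClopen V ∧ x ∈ V ∧ V ⊆ U

/-- the group of `2ℤ`-valued continuous functions vanishing on `P` -/
def D0 (P : Set K) : AddSubgroup C(K, ℝ) where
  carrier := {f | (∀ x ∈ P, f x = 0) ∧ ∀ x, ∃ n : ℤ, f x = 2 * n}
  zero_mem' := ⟨fun x _ => rfl, fun x => ⟨0, by simp⟩⟩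
  add_mem' := by
    rintro f g ⟨hf1, hf2⟩ ⟨hg1, hg2⟩
    refine ⟨fun x hx => ?_, fun x => ?_⟩
    · rw [ContinuousMap.add_apply, hf1 x hx, hg1 x hx, add_zero]
    · obtain ⟨n, hn⟩ := hf2 x
      obtain ⟨m, hm⟩ := hg2 x
      exact ⟨n + m, by rw [ContinuousMap.add_apply, hn, hm]; push_cast; ring⟩
  neg_mem' := by
    rintro f ⟨hf1, hf2⟩
    refine ⟨fun x hx => ?_, fun x => ?_⟩
    · rw [ContinuousMap.neg_apply, hf1 x hx, neg_zero]
    · obtain ⟨n, hn⟩ := hf2 x
      exact ⟨-n, by rw [ContinuousMap.neg_apply, hn]; push_cast; ring⟩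

theorem D0_sep {P : Set K} {f : C(K, ℝ)} (hf : f ∈ D0 P) (h0 : f ≠ 0) : 2 ≤ ‖f‖ := by
  obtain ⟨x, hx⟩ : ∃ x, f x ≠ 0 := by
    by_contra h
    push Not at h
    exact h0 (ContinuousMap.ext h)
  obtain ⟨n, hn⟩ := hf.2 x
  have h1 := ContinuousMap.norm_coe_le_norm f x
  refine le_trans ?_ h1
  rw [hn, Real.norm_eq_abs, abs_mul]
  have hn0 : n ≠ 0 := by
    rintro rfl
    rw [hn] at hx
    simp at hx
  have h2 : (1 : ℤ) ≤ |n| := Int.one_le_abs hn0
  have h3 : (1 : ℝ) ≤ |(n : ℝ)| := by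
    have := (Int.cast_le (R := ℝ)).2 h2
    rwa [Int.cast_one, Int.cast_abs] at this
  rw [abs_of_pos (by norm_num : (0 : ℝ) < 2)]
  linarith

/-- every real is within one of an even integer -/
theorem even_near (r : ℝ) : |r - 2 * (round (r / 2) : ℤ)| ≤ 1 := by
  have h := abs_sub_round (r / 2)
  have e : r - 2 * (round (r / 2) : ℤ) = 2 * (r / 2 - (round (r / 2) : ℤ)) := by ring
  rw [e, abs_mul, abs_of_pos (by norm_num : (0 : ℝ) < 2)]
  linarith

/-- rounding off `P` -/
theorem rounding {P : Set K} (hz : ZeroDimOff P) (hP : IsClosed P) (g : C(K, ℝ)) {c δ : ℝ}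
    (hc : 1 ≤ c) (hδ : 0 < δ) (hg : ∀ x ∈ P, |g x| ≤ c) : ∃ d ∈ D0 P, ‖g - d‖ ≤ c + δ := by
  classical
  set A : Set K := {x | c + δ ≤ |g x|} with hA
  have hAc : IsCompact A := (isClosed_le continuous_const (by fun_prop)).isCompact
  have hAP : ∀ x ∈ A, x ∉ P := by
    intro x hx hxP
    have h1 : c + δ ≤ |g x| := hx
    have h2 := hg x hxP
    linarith
  have hchoice : ∀ x : K, ∃ V : Set K, x ∈ A → (IsClopen V ∧ x ∈ V ∧ V ⊆ Pᶜ ∧
      ∀ y ∈ V, |g y - g x| < δ) := by
    intro x
    by_cases hx : x ∈ A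
    · have hU : (Pᶜ ∩ {y | |g y - g x| < δ}) ∈ 𝓝 x := by
        refine Filter.inter_mem (hP.isOpen_compl.mem_nhds (hAP x hx)) ?_
        have hca : ContinuousAt g x := g.continuous.continuousAt
        have := Metric.continuousAt_iff'.1 hca δ hδ
        simp only [Real.dist_eq] at this
        exact this
      obtain ⟨V, hV1, hV2, hV3⟩ := hz x (hAP x hx) _ hU
      exact ⟨V, fun _ => ⟨hV1, hV2, fun y hy => (hV3 hy).1, fun y hy => (hV3 hy).2⟩⟩
    · exact ⟨∅, fun h => absurd h hx⟩
  choose V hV using hchoice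
  obtain ⟨t, htA, hcov⟩ := hAc.elim_nhds_subcover V
    (fun x hx => (hV x hx).1.isOpen.mem_nhds (hV x hx).2.1)
  -- induction on finite subsets
  have hind : ∀ s : Finset K, (∀ x ∈ s, x ∈ A) → ∃ d ∈ D0 P,
      (∀ y ∈ ⋃ x ∈ s, V x, |g y - d y| ≤ 1 + δ) ∧ (∀ y ∉ ⋃ x ∈ s, V x, d y = 0) := by
    intro s
    induction s using Finset.induction_on with
    | empty =>
      intro _
      exact ⟨0, (D0 P).zero_mem, by simp, by intro y _; rfl⟩
    | insert x s hxs ih =>
      intro hs
      obtain ⟨d, hd, hd1, hd2⟩ := ih (fun y hy => hs y (Finset.mem_insert_of_mem hy))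
      have hxA : x ∈ A := hs x (Finset.mem_insert_self _ _)
      obtain ⟨hVx, hxV, hVP, hVg⟩ := hV x hxA
      have hold : IsClopen (⋃ y ∈ s, V y) := by
        refine s.finite_toSet.isClopen_biUnion (fun y hy => ?_)
        exact (hV y (hs y (Finset.mem_insert_of_mem hy))).1
      have hW : IsClopen (V x \ ⋃ y ∈ s, V y) := hVx.diff hold
      set W := V x \ ⋃ y ∈ s, V y with hWdef
      set q : ℝ := 2 * (round (g x / 2) : ℤ) with hq
      set e : C(K, ℝ) := ((LocallyConstant.charFn ℝ hW : LocallyConstant K ℝ) : C(K, ℝ)) with he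
      have he1 : ∀ y ∈ W, e y = 1 := by
        intro y hy
        show (LocallyConstant.charFn ℝ hW) y = 1
        rw [LocallyConstant.coe_charFn]; exact Set.indicator_of_mem hy _
      have he0 : ∀ y ∉ W, e y = 0 := by
        intro y hy
        show (LocallyConstant.charFn ℝ hW) y = 0
        rw [LocallyConstant.coe_charFn]; exact Set.indicator_of_notMem hy _
      have hmem : q • e ∈ D0 P := by
        refine ⟨fun y hy => ?_, fun y => ?_⟩
        · have : y ∉ W := fun h => hVP h.1 hy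
          rw [ContinuousMap.smul_apply, he0 y this, smul_zero]
        · by_cases hy : y ∈ W
          · exact ⟨round (g x / 2), by rw [ContinuousMap.smul_apply, he1 y hy, smul_eq_mul, mul_one]⟩
          · exact ⟨0, by rw [ContinuousMap.smul_apply, he0 y hy]; simp⟩
      refine ⟨d + q • e, (D0 P).add_mem hd hmem, ?_, ?_⟩
      · intro y hy
        have hval : (d + q • e) y = d y + q * e y := rfl
        rw [hval]
        by_cases hyo : y ∈ ⋃ y ∈ s, V y
        · have : y ∉ W := fun h => h.2 hyo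
          rw [he0 y this, mul_zero, add_zero]
          exact hd1 y hyo
        · have hyx : y ∈ V x := by
            simp only [Finset.mem_insert, Set.iUnion_iUnion_eq_or_left, Set.mem_union] at hy
            exact hy.resolve_right hyo
          rw [he1 y ⟨hyx, hyo⟩, hd2 y hyo, mul_one, zero_add]
          have h1 := hVg y hyx
          have h2 := even_near (g x)
          rw [← hq] at h2
          have e3 : g y - q = (g y - g x) + (g x - q) := by ring
          rw [e3]
          refine (abs_add_le _ _).trans ?_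
          linarith
      · intro y hy
        simp only [Finset.mem_insert, Set.iUnion_iUnion_eq_or_left, Set.mem_union, not_or] at hy
        have hval : (d + q • e) y = d y + q * e y := rfl
        have : y ∉ W := fun h => hy.1 h.1
        rw [hval, he0 y this, mul_zero, add_zero]
        exact hd2 y hy.2
  obtain ⟨d, hd, hd1, hd2⟩ := hind t htA
  refine ⟨d, hd, ?_⟩
  rw [ContinuousMap.norm_le _ (by linarith)]
  intro y
  rw [ContinuousMap.sub_apply, Real.norm_eq_abs]
  by_cases hy : y ∈ ⋃ x ∈ t, V x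
  · exact (hd1 y hy).trans (by linarith)
  · rw [hd2 y hy, sub_zero]
    by_contra h
    push Not at h
    exact hy (hcov h.le)

/-- restriction as a linear map -/
def res (P : Set K) : C(K, ℝ) →ₗ[ℝ] C(P, ℝ) where
  toFun f := f.restrict P
  map_add' f g := rfl
  map_smul' c f := rfl

theorem res_surj {P : Set K} (hP : IsClosed P) : Function.Surjective (res P) := fun f =>
  ContinuousMap.exists_restrict_eq hP f

/-- **Reduction.** -/
theorem reduce {P : Set K} (hz : ZeroDimOff P) (hP : IsClosed P) {c δ : ℝ} (hc : 1 ≤ c)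
    (hδ : 0 < δ) [CompactSpace P]
    (h : ∃ D : AddSubgroup C(P, ℝ), Sep2 (D : Set C(P, ℝ)) ∧ RDense c (D : Set C(P, ℝ))) :
    ∃ D : AddSubgroup C(K, ℝ), Sep2 (D : Set C(K, ℝ)) ∧ RDense (c + δ) (D : Set C(K, ℝ)) := by
  obtain ⟨D, hD1, hD2⟩ := h
  obtain ⟨s, hs⟩ := (res P).exists_rightInverse_of_surjective
    (LinearMap.range_eq_top.2 (res_surj hP))
  have hs' : ∀ p, (s p).restrict P = p := fun p => LinearMap.congr_fun hs p
  refine ⟨D.map s.toAddMonoidHom ⊔ D0 P, ?_, ?_⟩
  · intro F hF F' hF' hne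
    have hmem := AddSubgroup.sub_mem _ hF hF'
    obtain ⟨y, hy, d, hd, hyd⟩ := AddSubgroup.mem_sup.1 hmem
    obtain ⟨p, hp, rfl⟩ := AddSubgroup.mem_map.1 hy
    have hne' : F - F' ≠ 0 := sub_ne_zero.2 hne
    rw [← hyd] at hne' ⊢
    have hsp : s.toAddMonoidHom p = s p := rfl
    rw [hsp] at hne' ⊢
    by_cases hp0 : p = 0
    · rw [hp0, map_zero, zero_add] at hne' ⊢
      exact D0_sep hd hne'
    · have h1 := hD1 p hp 0 D.zero_mem hp0
      rw [sub_zero] at h1
      refine h1.trans ?_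
      rw [ContinuousMap.norm_le _ (norm_nonneg _)]
      intro x
      have h2 : p x = (s p + d) (x : K) := by
        rw [ContinuousMap.add_apply, hd.1 x x.2, add_zero]
        conv_lhs => rw [← hs' p]
        rfl
      rw [h2]
      exact ContinuousMap.norm_coe_le_norm _ _
  · intro f
    obtain ⟨p, hp, hpf⟩ := hD2 (f.restrict P)
    have hg : ∀ x ∈ P, |(f - s p) x| ≤ c := by
      intro x hx
      have h1 := (ContinuousMap.norm_coe_le_norm (f.restrict P - p) ⟨x, hx⟩).trans hpf
      have h2 : (f.restrict P - p) ⟨x, hx⟩ = (f - s p) x := by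
        conv_lhs => rw [← hs' p]
        rfl
      rwa [h2, Real.norm_eq_abs] at h1
    obtain ⟨d, hd, hd1⟩ := rounding hz hP (f - s p) hc hδ hg
    refine ⟨s p + d, AddSubgroup.add_mem_sup (AddSubgroup.mem_map.2 ⟨p, hp, rfl⟩) hd, ?_⟩
    rw [← sub_sub]
    exact hd1

end Pool.Agent.Q99.CK
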