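import Pool.Agent.Q99.CK.Oct
import Pool.Agent.Q99.CK.Reduce

namespace Pool.Agent.Q99.CK

open Topology

theorem good_of_empty {Y : Type*} [TopologicalSpace Y] [CompactSpace Y] [IsEmpty Y] :
    Good C(Y, ℝ) := by
  intro ε hε
  refine ⟨⊥, ?_, ?_⟩
  · intro d hd d' hd' hne
    exact absurd (ContinuousMap.ext fun y => isEmptyElim y) hne
  · intro x
    refine ⟨0, AddSubgroup.zero_mem _, ?_⟩
    have : x - 0 = 0 := ContinuousMap.ext fun y => isEmptyElim y
    rw [this, norm_zero]; linarith

/-- perfect compact metrizable spaces are good -/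
theorem good_perfect {Y : Type*} [TopologicalSpace Y] [CompactSpace Y]
    [TopologicalSpace.MetrizableSpace Y] (h : ∀ y : Y, Filter.NeBot (𝓝[≠] y)) :
    Good C(Y, ℝ) := by
  rcases isEmpty_or_nonempty Y with hY | hY
  · exact good_of_empty
  · letI := TopologicalSpace.metrizableSpaceMetric Y
    have : SecondCountableTopology Y := inferInstance
    have : TopologicalSpace.SeparableSpace C(Y, ℝ) := inferInstance
    refine good_of_oct ?_
    intro F hF η hη
    have := hF
    have := h
    exact octahedral F hη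

theorem neBot_of_perfect {K : Type*} [TopologicalSpace K] {D : Set K} (hD : Perfect D) (y : D) :
    Filter.NeBot (𝓝[≠] y) := by
  rw [← mem_closure_iff_nhdsWithin_neBot, mem_closure_iff_nhds]
  intro t ht
  obtain ⟨u, hu, hut⟩ := (mem_nhds_subtype D y t).1 ht
  have hacc := hD.acc (y : K) y.2
  rw [accPt_iff_nhds] at hacc
  obtain ⟨z, ⟨hzu, hzD⟩, hne⟩ := hacc u hu
  refine ⟨⟨z, hzD⟩, hut hzu, ?_⟩
  intro h
  exact hne (congrArg Subtype.val h)

theorem zeroDimOff_kernel {K : Type*} [MetricSpace K] {V D : Set K} (hV : V.Countable)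
    (hD : IsClosed D) (h : Set.univ = V ∪ D) : ZeroDimOff D := by
  intro x hx U hU
  have hUD : U ∩ Dᶜ ∈ 𝓝 x := Filter.inter_mem hU (hD.isOpen_compl.mem_nhds hx)
  obtain ⟨r₀, hr₀, hball⟩ := Metric.mem_nhds_iff.1 hUD
  have hS : (Set.image (fun y => dist y x) V).Countable := hV.image _
  obtain ⟨r, hr, hrS⟩ := (hS.dense_compl ℝ).inter_open_nonempty (Set.Ioo 0 r₀) isOpen_Ioo
    (Set.nonempty_Ioo.2 hr₀)
  have heq : Metric.ball x r = Metric.closedBall x r := by
    refine Set.Subset.antisymm Metric.ball_subset_closedBall ?_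
    intro y hy
    rcases lt_or_eq_of_le (Metric.mem_closedBall.1 hy) with h1 | h1
    · exact Metric.mem_ball.2 h1
    · exfalso
      have hyb : y ∈ Metric.ball x r₀ := Metric.mem_ball.2 (by rw [h1]; exact hr.2)
      have hyD : y ∉ D := (hball hyb).2
      have hyV : y ∈ V := by
        have : y ∈ V ∪ D := by rw [← h]; exact Set.mem_univ y
        exact this.resolve_right hyD
      exact hrS ⟨y, hyV, h1⟩
  refine ⟨Metric.ball x r, ⟨?_, Metric.isOpen_ball⟩, Metric.mem_ball_self hr.1, ?_⟩
  · rw [heq]; exact Metric.isClosed_closedBall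
  · exact fun y hy => (hball (Metric.ball_subset_ball hr.2.le hy)).1

/-- **compact metrizable spaces are good** -/
theorem good_metrizable {K : Type*} [TopologicalSpace K] [CompactSpace K]
    [TopologicalSpace.MetrizableSpace K] : Good C(K, ℝ) := by
  let := TopologicalSpace.metrizableSpaceMetric K
  obtain ⟨V, D, hV, hD, hVD⟩ := exists_countable_union_perfect_of_isClosed
    (isClosed_univ (X := K))
  have hz := zeroDimOff_kernel hV hD.closed hVD
  have : CompactSpace D := isCompact_iff_compactSpace.1 hD.closed.isCompact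
  have hg : Good C(D, ℝ) := good_perfect (neBot_of_perfect hD)
  intro ε hε
  obtain ⟨D', h1, h2⟩ := reduce hz hD.closed (c := 1 + ε / 2) (δ := ε / 2) (by linarith)
    (by linarith) (hg (ε / 2) (by linarith))
  refine ⟨D', h1, ?_⟩
  have e : 1 + ε / 2 + ε / 2 = 1 + ε := by ring
  rwa [e] at h2

/-- the general form: `K` zero-dimensional off a closed metrizable set -/
theorem good_general {K : Type*} [TopologicalSpace K] [CompactSpace K] [T2Space K] {P : Set K}
    (hP : IsClosed P) (hz : ZeroDimOff P) (hm : TopologicalSpace.MetrizableSpace P) :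
    Good C(K, ℝ) := by
  have : CompactSpace P := isCompact_iff_compactSpace.1 hP.isCompact
  have hg : Good C(P, ℝ) := good_metrizable
  intro ε hε
  obtain ⟨D', h1, h2⟩ := reduce hz hP (c := 1 + ε / 2) (δ := ε / 2) (by linarith)
    (by linarith) (hg (ε / 2) (by linarith))
  refine ⟨D', h1, ?_⟩
  have e : 1 + ε / 2 + ε / 2 = 1 + ε := by ring
  rwa [e] at h2

/-- in a nonzero space the constant is at least one -/
theorem one_le_of_dense {X : Type*} [NormedAddCommGroup X] [NormedSpace ℝ X] [Nontrivial X]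
    {D : Set X} {r : ℝ} (h1 : Sep2 D) (h2 : RDense r D) : 1 ≤ r := by
  by_contra h
  push Not at h
  obtain ⟨e, he⟩ := exists_norm_eq X (zero_le_one)
  obtain ⟨p, hp, -⟩ := h2 0
  obtain ⟨q, hq, hqr⟩ := h2 (p + e)
  have hne : p ≠ q := by
    rintro rfl
    rw [add_sub_cancel_left, he] at hqr
    linarith
  have h3 := h1 p hp q hq hne
  have h4 : ‖p - q‖ ≤ ‖p + e - q‖ + ‖e‖ := by
    have : p - q = (p + e - q) - e := by abel
    rw [this]; exact norm_sub_le _ _
  linarith

theorem gamLat_eq_one {X : Type*} [NormedAddCommGroup X] [NormedSpace ℝ X] [Nontrivial X]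
    (h : Good X) : gamLat X = 1 := by
  refine le_antisymm ?_ ?_
  · refine le_of_forall_pos_le_add fun ε hε => ?_
    obtain ⟨D, h1, h2⟩ := h ε hε
    exact csInf_le ⟨0, fun r hr => hr.1.le⟩ ⟨by linarith, D, h1, h2⟩
  · obtain ⟨D, h1, h2⟩ := h 1 one_pos
    refine le_csInf ⟨1 + 1, by norm_num, D, h1, h2⟩ ?_
    rintro r ⟨-, D, h1, h2⟩
    exact one_le_of_dense h1 h2

/-- reduction of the general problem to the closed part -/
theorem gamLat_le {K : Type*} [TopologicalSpace K] [CompactSpace K] [T2Space K] {P : Set K}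
    (hP : IsClosed P) (hz : ZeroDimOff P) (hne : P.Nonempty) [CompactSpace P]
    (hex : ∃ r : ℝ, 0 < r ∧ ∃ D : AddSubgroup C(P, ℝ), Sep2 (D : Set C(P, ℝ)) ∧
      RDense r (D : Set C(P, ℝ))) :
    gamLat C(K, ℝ) ≤ gamLat C(P, ℝ) := by
  have : Nonempty P := hne.to_subtype
  refine le_csInf hex ?_
  rintro r ⟨hr, D, h1, h2⟩
  refine le_of_forall_pos_le_add fun δ hδ => ?_
  have h3 : 1 ≤ r := one_le_of_dense h1 h2
  obtain ⟨D', h4, h5⟩ := reduce hz hP h3 hδ ⟨D, h1, h2⟩
  exact csInf_le ⟨0, fun r hr => hr.1.le⟩ ⟨by linarith, D', h4, h5⟩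

end Pool.Agent.Q99.CK
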