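import Mathlib

namespace Pool.Agent.Q99.CK

open Topology

variable {Y : Type*} [TopologicalSpace Y]

/-- disjoint finite sets of points in prescribed open sets -/
theorem pick_points [T1Space Y] [∀ y : Y, Filter.NeBot (𝓝[≠] y)] {ι : Type*} (s : Finset ι)
    (U : ι → Set Y) (hU : ∀ i ∈ s, ∃ x, U i ∈ 𝓝 x) :
    ∃ A B : Finset Y, Disjoint A B ∧ (∀ i ∈ s, ∃ a ∈ A, a ∈ U i) ∧ (∀ i ∈ s, ∃ b ∈ B, b ∈ U i) := by
  classical
  induction s using Finset.induction_on with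
  | empty => exact ⟨∅, ∅, by simp, by simp, by simp⟩
  | insert i s his ih =>
    obtain ⟨A, B, hAB, hA, hB⟩ := ih (fun j hj => hU j (Finset.mem_insert_of_mem hj))
    obtain ⟨x, hx⟩ := hU i (Finset.mem_insert_self i s)
    have hinf : (U i).Infinite := infinite_of_mem_nhds x hx
    obtain ⟨a, ha, haAB⟩ := hinf.exists_notMem_finset (A ∪ B)
    obtain ⟨b, hb, hbAB⟩ := hinf.exists_notMem_finset (insert a (A ∪ B))
    simp only [Finset.mem_union, not_or, Finset.mem_insert] at haAB hbAB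
    refine ⟨insert a A, insert b B, ?_, ?_, ?_⟩
    · rw [Finset.disjoint_insert_left, Finset.disjoint_insert_right]
      refine ⟨?_, hbAB.2.1, hAB⟩
      simp only [Finset.mem_insert, not_or]
      exact ⟨fun h => hbAB.1 h.symm, haAB.2⟩
    · intro j hj
      rcases Finset.mem_insert.1 hj with rfl | hj
      · exact ⟨a, Finset.mem_insert_self _ _, ha⟩
      · obtain ⟨c, hc, hcU⟩ := hA j hj
        exact ⟨c, Finset.mem_insert_of_mem hc, hcU⟩
    · intro j hj
      rcases Finset.mem_insert.1 hj with rfl | hj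
      · exact ⟨b, Finset.mem_insert_self _ _, hb⟩
      · obtain ⟨c, hc, hcU⟩ := hB j hj
        exact ⟨c, Finset.mem_insert_of_mem hc, hcU⟩

/-- a continuous function with values in `[-1,1]`, equal to `1` on `A` and to `-1` on `B` -/
theorem sign_fun [CompactSpace Y] [T2Space Y] (A B : Finset Y) (hAB : Disjoint A B) :
    ∃ u : C(Y, ℝ), ‖u‖ ≤ 1 ∧ (∀ a ∈ A, u a = 1) ∧ (∀ b ∈ B, u b = -1) := by
  classical
  obtain ⟨f, h0, h1, h01⟩ := exists_continuous_zero_one_of_isClosed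
    (s := (B : Set Y)) (t := (A : Set Y)) B.finite_toSet.isClosed A.finite_toSet.isClosed
    (by rw [Finset.disjoint_coe]; exact hAB.symm)
  have hval : ∀ y, (f + f - 1 : C(Y, ℝ)) y = f y + f y - 1 := fun y => rfl
  refine ⟨f + f - 1, ?_, ?_, ?_⟩
  · rw [ContinuousMap.norm_le _ zero_le_one]
    intro y
    obtain ⟨hy0, hy1⟩ := h01 y
    rw [hval, Real.norm_eq_abs, abs_le]
    constructor <;> linarith
  · intro a ha
    have : f a = 1 := h1 ha
    rw [hval, this]; norm_num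
  · intro b hb
    have : f b = 0 := h0 hb
    rw [hval, this]; norm_num

/-- **Octahedrality** of `C(Y)` for `Y` compact Hausdorff without isolated points. -/
theorem octahedral [CompactSpace Y] [T2Space Y] [Nonempty Y] [∀ y : Y, Filter.NeBot (𝓝[≠] y)]
    (F : Submodule ℝ C(Y, ℝ)) [FiniteDimensional ℝ F] {η : ℝ} (hη : 0 < η) :
    ∃ u : C(Y, ℝ), ‖u‖ ≤ 1 ∧ ∀ y ∈ F, ∀ s : ℝ, 0 ≤ s → (1 - η) * (‖y‖ + s) ≤ ‖y + s • u‖ := by
  classical
  -- enlarge `F` so that it contains `1`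
  set G : Submodule ℝ C(Y, ℝ) := F ⊔ Submodule.span ℝ {1} with hG
  have : FiniteDimensional ℝ G := by
    rw [hG]; infer_instance
  have : ProperSpace G := FiniteDimensional.proper ℝ G
  have hcomp : IsCompact (Metric.sphere (0 : G) 1) := isCompact_sphere _ _
  obtain ⟨T, hT1, hTfin, hT2⟩ := hcomp.totallyBounded.exists_subset
    (Metric.dist_mem_uniformity (show (0 : ℝ) < η / 2 by linarith))
  -- peak points
  have hpeak : ∀ y : G, ∃ x : Y, ‖(y : C(Y, ℝ))‖ = |(y : C(Y, ℝ)) x| := by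
    intro y
    obtain ⟨x, -, hx⟩ := isCompact_univ.exists_isMaxOn (Set.univ_nonempty (α := Y))
      (f := fun x => |(y : C(Y, ℝ)) x|) (by fun_prop)
    refine ⟨x, le_antisymm ?_ ?_⟩
    · rw [ContinuousMap.norm_le _ (abs_nonneg _)]
      intro z
      exact hx (Set.mem_univ z)
    · exact ContinuousMap.norm_coe_le_norm (y : C(Y, ℝ)) x
  choose pk hpk using hpeak
  obtain ⟨A, B, hAB, hA, hB⟩ := pick_points hTfin.toFinset
    (fun y : G => {z : Y | |(y : C(Y, ℝ)) z - (y : C(Y, ℝ)) (pk y)| < η / 2})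
    (fun y _ => ⟨pk y, by
      have hc : ContinuousAt (y : C(Y, ℝ)) (pk y) := (y : C(Y, ℝ)).continuous.continuousAt
      have := Metric.continuousAt_iff'.1 hc (η / 2) (by linarith)
      simp only [Real.dist_eq] at this
      exact this⟩)
  obtain ⟨u, hu1, huA, huB⟩ := sign_fun A B hAB
  refine ⟨u, hu1, ?_⟩
  -- normalized case
  have hnorm : ∀ y : G, ‖y‖ = 1 → ∀ s : ℝ, 0 ≤ s → 1 - η + s ≤ ‖(y : C(Y, ℝ)) + s • u‖ := by
    intro y hy s hs
    have hyS : y ∈ Metric.sphere (0 : G) 1 := by simpa using hy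
    have := hT2 hyS
    simp only [Set.mem_iUnion, Set.mem_ofPred_eq, exists_prop] at this
    obtain ⟨y', hy'T, hdist⟩ := this
    have hy'1 : ‖(y' : C(Y, ℝ))‖ = 1 := by
      have := hT1 hy'T
      simpa using this
    have hclose : ∀ z : Y, |(y : C(Y, ℝ)) z - (y' : C(Y, ℝ)) z| ≤ η / 2 := by
      intro z
      have h1 : ‖((y - y' : G) : C(Y, ℝ))‖ < η / 2 := by
        rw [dist_eq_norm] at hdist; exact hdist
      have h2 := ContinuousMap.norm_coe_le_norm ((y - y' : G) : C(Y, ℝ)) z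
      have h3 : ((y - y' : G) : C(Y, ℝ)) z = (y : C(Y, ℝ)) z - (y' : C(Y, ℝ)) z := rfl
      rw [h3, Real.norm_eq_abs] at h2
      linarith
    have hval := hpk y'
    rw [hy'1] at hval
    rcases abs_cases ((y' : C(Y, ℝ)) (pk y')) with ⟨h, -⟩ | ⟨h, -⟩
    · obtain ⟨a, haA, haU⟩ := hA y' (hTfin.mem_toFinset.2 hy'T)
      have h1 := huA a haA
      have h2 := ContinuousMap.norm_coe_le_norm ((y : C(Y, ℝ)) + s • u) a
      have h3 : ((y : C(Y, ℝ)) + s • u) a = (y : C(Y, ℝ)) a + s * u a := rfl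
      rw [h3, h1, Real.norm_eq_abs] at h2
      have h4 := hclose a
      simp only [Set.mem_ofPred_eq] at haU
      have h5 := (abs_lt.1 haU).1
      have h6 := (abs_le.1 h4).1
      have h7 := le_abs_self ((y : C(Y, ℝ)) a + s * 1)
      rw [h] at hval
      linarith
    · obtain ⟨b, hbB, hbU⟩ := hB y' (hTfin.mem_toFinset.2 hy'T)
      have h1 := huB b hbB
      have h2 := ContinuousMap.norm_coe_le_norm ((y : C(Y, ℝ)) + s • u) b
      have h3 : ((y : C(Y, ℝ)) + s • u) b = (y : C(Y, ℝ)) b + s * u b := rfl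
      rw [h3, h1, Real.norm_eq_abs] at h2
      have h4 := hclose b
      simp only [Set.mem_ofPred_eq] at hbU
      have h5 := (abs_lt.1 hbU).2
      have h6 := (abs_le.1 h4).2
      have h7 := neg_le_abs ((y : C(Y, ℝ)) b + s * -1)
      rw [h] at hval
      linarith
  -- `‖u‖ = 1`
  have hu1' : 1 - η ≤ ‖u‖ := by
    have h1G : (1 : C(Y, ℝ)) ∈ G := by
      rw [hG]; exact Submodule.mem_sup_right (Submodule.mem_span_singleton_self 1)
    have hn : ‖(⟨1, h1G⟩ : G)‖ = 1 := by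
      show ‖(1 : C(Y, ℝ))‖ = 1
      exact norm_one
    have h2 := hnorm ⟨1, h1G⟩ hn 1 zero_le_one
    have h3 : ‖(1 : C(Y, ℝ)) + (1 : ℝ) • u‖ ≤ 1 + ‖u‖ := by
      refine (norm_add_le _ _).trans ?_
      rw [norm_one, one_smul]
    have h4 : ‖((⟨1, h1G⟩ : G) : C(Y, ℝ)) + (1 : ℝ) • u‖ ≤ 1 + ‖u‖ := h3
    linarith
  intro y hy s hs
  by_cases hy0 : y = 0
  · rw [hy0, zero_add, norm_zero, zero_add, norm_smul, Real.norm_of_nonneg hs]
    nlinarith
  · have hpos : 0 < ‖y‖ := norm_pos_iff.2 hy0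
    have hyG : y ∈ G := by rw [hG]; exact Submodule.mem_sup_left hy
    have hn : ‖(‖y‖)⁻¹ • (⟨y, hyG⟩ : G)‖ = 1 := by
      show ‖(‖y‖)⁻¹ • y‖ = 1
      rw [norm_smul, norm_inv, norm_norm]
      exact inv_mul_cancel₀ hpos.ne'
    have h1 := hnorm _ hn (s / ‖y‖) (div_nonneg hs hpos.le)
    have h2 : ((‖y‖⁻¹ • (⟨y, hyG⟩ : G) : G) : C(Y, ℝ)) + (s / ‖y‖) • u =
        ‖y‖⁻¹ • (y + s • u) := by
      rw [smul_add, smul_smul, div_eq_inv_mul]; rfl
    rw [h2, norm_smul, norm_inv, norm_norm] at h1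
    have h3 : ‖y‖ * (1 - η + s / ‖y‖) ≤ ‖y‖ * (‖y‖⁻¹ * ‖y + s • u‖) :=
      mul_le_mul_of_nonneg_left h1 hpos.le
    rw [← mul_assoc, mul_inv_cancel₀ hpos.ne', one_mul] at h3
    have h4 : ‖y‖ * (1 - η + s / ‖y‖) = (1 - η) * ‖y‖ + s := by
      field_simp
    rw [h4] at h3
    nlinarith

end Pool.Agent.Q99.CK
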